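import Pool.Agent.H898.HH.Criterion

/-!
# Hierarchically hyperbolic groups with a colourable structure

Let `G` be a hierarchically hyperbolic group such that each domain `v` which is minimal among the
unbounded domains satisfies one of the following conditions.

* (`OrthSep`) No element `g` of the closure of the stabiliser of `v` in the profinite topology of `G`
  moves `v` to a domain orthogonal to `v`; for example the stabiliser is separable.
* (`Detected`) Some element of the stabiliser of `v` moves the coordinates in the domains orthogonal
  to `v` by at most `C`, but neither it nor its products with elements of the finite residual do so
  with the `v`-coordinates.
* (`Lin` and `ResBdd`) The space of `v` is a quasi-line and the finite residual of `G` moves its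
  points by a bounded amount; for example the finite residual is finite.

Then `G` has a colourable hierarchically hyperbolic structure.  In particular this holds for residually
finite `G` if each minimal unbounded domain is a quasi-line, is detected or has a separable
stabiliser.
-/

set_option autoImplicit false

namespace Pool.Agent.Results.MP_bed68a_al.ColourCriterion

open Pool.Agent.H898.HH

theorem result (G : Type) [Group G] (X : HHG G)
    (h : ∀ v, X.MinUnb v → X.OrthSep v ∨ X.Detected v ∨ (X.Lin v ∧ X.ResBdd v)) :
    ∃ Y : HHG G, Y.Colorable :=
  X.exists_colorable_of_criteria h

end Pool.Agent.Results.MP_bed68a_al.ColourCriterion
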