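import Pool.Agent.H898.HH.Exact

/-!
# Colourability is a separability property

Let `G` be a hierarchically hyperbolic group such that an unbounded domain is nested in each domain
(the other domains can be discarded).  Then the structure is colourable if and only if, for each
domain `v` which is minimal among the unbounded ones, no element `g` such that `g v` is orthogonal to
`v` lies in the closure of the stabiliser of `v` in the profinite topology of `G`.
-/

set_option autoImplicit false

namespace Pool.Agent.Results.MP_bed68a_al.ColourExact

open Pool.Agent.H898.HH

theorem result (G : Type) [Group G] (X : HHG G) (hX : ∀ u, ∃ v, X.hhs.nest v u ∧ X.Unb v) :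
    X.Colorable ↔ ∀ v, X.MinUnb v → X.OrthSep v :=
  X.colorable_iff' hX

end Pool.Agent.Results.MP_bed68a_al.ColourExact
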