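import Pool.Agent.H898.HH.BicombHHG

/-!
# A consistent convex bicombing for every hierarchically hyperbolic group

Every hierarchically hyperbolic group acts by isometries, metrically properly and coboundedly, on a
complete metric space with an equivariant geodesic bicombing which is consistent, reversible and
convex.  The structure need not be colourable.

The proof: gates to hulls of arbitrary sets, a chain metric for which balls are closed under hulls,
its rough geodesicity and the coarse Helly property; the injective hull of the chain metric with
its conical midpoints; straight sequences with steps of length about `h`, which exist and are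
unique by a contraction argument; and the limit for `h → 0` in an ultrapower.
-/

set_option autoImplicit false

namespace Pool.Agent.Results.MP_bed68a_al.ConvexBicombing

open Pool.Agent.H898.HH

theorem result (G : Type) [Group G] (X : HHG G) :
    ∃ (Y : Type) (_ : MetricSpace Y) (_ : MulAction G Y) (c : Y → Y → ℝ → Y),
      Nonempty Y ∧ CompleteSpace Y ∧
      (∀ (g : G) (x y : Y), dist (g • x) (g • y) = dist x y) ∧
      (∀ (y : Y) (R : ℝ), {g : G | dist y (g • y) ≤ R}.Finite) ∧
      (∃ K : ℝ, ∀ x y : Y, ∃ g : G, dist x (g • y) ≤ K) ∧
      IsBicombing c ∧ ∀ (g : G) (x y : Y) (t : ℝ), c (g • x) (g • y) t = g • c x y t :=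
  X.exists_bicombing

end Pool.Agent.Results.MP_bed68a_al.ConvexBicombing
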