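import Pool.Agent.H898.HH.WrHHG

/-!
# Groups which are virtually finite-by-(hierarchically hyperbolic)

Every group `K` with a subgroup `H` of finite index and a surjective homomorphism with finite kernel
from `H` to a hierarchically hyperbolic group embeds in a hierarchically hyperbolic group, which can
be taken to be colourable if the given one is.
-/

set_option autoImplicit false

namespace Pool.Agent.Results.MP_bed68a_al.VirtualEmbedding

open Pool.Agent.H898.HH

theorem result (K : Type) [Group K] (H : Subgroup K) [H.FiniteIndex] (Q : Type) [Group Q]
    (f : H →* Q) (hf : Function.Surjective f) [Finite f.ker] (X : HHG Q) :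
    ∃ (W : Type) (_ : Group W) (Y : HHG W) (i : K →* W), Function.Injective i ∧
      (X.Colorable → Y.Colorable) :=
  embed_main K H Q f hf X

end Pool.Agent.Results.MP_bed68a_al.VirtualEmbedding
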